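import Pool.Agent.helper52.FS.SpecP

set_option autoImplicit false

open MeasureTheory Set

namespace Pool.Agent.FS

theorem HMB_sum (i1 i2 : ℕ) : ∑ j ∈ Finset.Ico i1 i2, (2 : ℝ) ^ j ≤ 2 ^ i2 := by
  induction i2 with
  | zero => simp
  | succ n ih =>
    by_cases h : i1 ≤ n
    · rw [Finset.sum_Ico_succ_top h]
      have : (2 : ℝ) ^ (n + 1) = 2 ^ n + 2 ^ n := by ring
      rw [this]
      linarith
    · rw [Finset.Ico_eq_empty (by omega)]
      simp

theorem HMB_far (g : ℝ) (hg : 0 < g) (hg8 : g ≤ 1 / 8) (i j : ℕ) (hij : j ≠ i) (yi yj x : ℝ)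
    (h1 : 2 ^ i ≤ yi) (h2 : yi ≤ 3 / 2 * 2 ^ i) (h3 : 2 ^ j ≤ yj) (h4 : yj ≤ 3 / 2 * 2 ^ j)
    (hx : |x - yi| ≤ g * 2 ^ i / 2) :
    x ≤ yj - g * 2 ^ j / 4 - g / 4 ∨ yj + g * 2 ^ j / 4 + g / 4 ≤ x := by
  rw [abs_le] at hx
  obtain ⟨hx1, hx2⟩ := hx
  have hi1 : (1 : ℝ) ≤ 2 ^ i := one_le_pow₀ (by norm_num)
  have hj1 : (1 : ℝ) ≤ 2 ^ j := one_le_pow₀ (by norm_num)
  have hgi : g * 2 ^ i ≤ 1 / 8 * 2 ^ i := mul_le_mul_of_nonneg_right hg8 (by positivity)
  have hgj : g * 2 ^ j ≤ 1 / 8 * 2 ^ j := mul_le_mul_of_nonneg_right hg8 (by positivity)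
  rcases lt_or_gt_of_ne hij with h | h
  · right
    have : (2 : ℝ) ^ (j + 1) ≤ 2 ^ i := pow_le_pow_right₀ (by norm_num) h
    rw [pow_succ] at this
    linarith
  · left
    have : (2 : ℝ) ^ (i + 1) ≤ 2 ^ j := pow_le_pow_right₀ (by norm_num) h
    rw [pow_succ] at this
    linarith

theorem HMB_low (c g : ℝ) (hc : 0 < c) (hg : 0 < g) (hg8 : g ≤ 1 / 8) (i : ℕ) (yi w : ℝ)
    (h1 : 2 ^ i ≤ yi) (h2 : yi ≤ 3 / 2 * 2 ^ i)
    (hw : ((yi + g * 2 ^ i / 4) - (yi - g * 2 ^ i / 4)) / (Real.pi * (1 + (yi + g * 2 ^ i / 4) ^ 2)) ≤ w) :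
    c * g ^ 2 / 200 ≤ c * g * 2 ^ i / 8 * w := by
  have hi1 : (1 : ℝ) ≤ 2 ^ i := one_le_pow₀ (by norm_num)
  have hgi : g * 2 ^ i ≤ 1 / 8 * 2 ^ i := mul_le_mul_of_nonneg_right hg8 (by positivity)
  have hpi := Real.pi_lt_d2
  have hpi0 := Real.pi_pos
  generalize (2 : ℝ) ^ i = P at *
  have hP0 : 0 < P := by linarith
  have hgP : 0 < g * P := by positivity
  have hr : yi + g * P / 4 ≤ 49 / 32 * P := by linarith
  have hr0 : 0 ≤ yi + g * P / 4 := by linarith
  have hsq : (yi + g * P / 4) ^ 2 ≤ (49 / 32 * P) ^ 2 := pow_le_pow_left₀ hr0 hr 2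
  have h1P : 1 ≤ P ^ 2 := one_le_pow₀ hi1
  have hden : Real.pi * (1 + (yi + g * P / 4) ^ 2) ≤ 3.15 * (P ^ 2 + (49 / 32 * P) ^ 2) := by
    apply mul_le_mul hpi.le (by linarith) (by positivity) (by norm_num)
  have hden0 : 0 < Real.pi * (1 + (yi + g * P / 4) ^ 2) := by positivity
  have h3 : (g * P / 2) / (3.15 * (P ^ 2 + (49 / 32 * P) ^ 2)) ≤ w := by
    refine le_trans ?_ hw
    have : (yi + g * P / 4) - (yi - g * P / 4) = g * P / 2 := by ring
    rw [this]
    exact div_le_div_of_nonneg_left (by positivity) hden0 hden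
  calc c * g ^ 2 / 200 ≤ c * g * P / 8 * ((g * P / 2) / (3.15 * (P ^ 2 + (49 / 32 * P) ^ 2))) := by
        have e : c * g * P / 8 * ((g * P / 2) / (3.15 * (P ^ 2 + (49 / 32 * P) ^ 2))) =
            c * g ^ 2 * (1 / (16 * (3.15 * (1 + (49 / 32) ^ 2)))) := by
          field_simp
          ring
        rw [e]
        have h4 : (1 : ℝ) / 200 ≤ 1 / (16 * (3.15 * (1 + (49 / 32) ^ 2))) := by norm_num
        have h5 : 0 < c * g ^ 2 := by positivity
        calc c * g ^ 2 / 200 = c * g ^ 2 * (1 / 200) := by ring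
          _ ≤ _ := mul_le_mul_of_nonneg_left h4 h5.le
    _ ≤ _ := mul_le_mul_of_nonneg_left h3 (by positivity)

theorem HMB_proof (hROT : ROT_stmt) (hHMW : HMW_stmt) : HMB_stmt := by
  intro c g A i1 i2 C y hc hc1 hg hg8 hA hi hdiff hbd hgap
  have hl : ∀ i : ℕ, y i - g * 2 ^ i / 4 ≤ y i + g * 2 ^ i / 4 := by
    intro i
    have : 0 < g * 2 ^ i / 4 := by positivity
    linarith
  set W : ℕ → ℂ → ℂ := fun i z => WW (y i - g * 2 ^ i / 4) (y i + g * 2 ^ i / 4) z with hW
  set E : ℂ → ℂ := fun z => ∑ i ∈ Finset.Ico i1 i2, ((c * g * 2 ^ i / 8 : ℝ) : ℂ) * W i z with hE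
  have hEre : ∀ z, (E z).re = ∑ i ∈ Finset.Ico i1 i2, (c * g * 2 ^ i / 8) * (W i z).re := by
    intro z
    simp only [hE, Complex.re_sum, Complex.re_ofReal_mul]
  set F : ℂ → ℂ := fun z => C z * Complex.exp (E z) with hF
  have hFn : ∀ z, ‖F z‖ = ‖C z‖ * Real.exp ((E z).re) := by
    intro z
    simp only [hF, norm_mul, Complex.norm_exp]
  have hlam : ∀ i : ℕ, 0 < c * g * 2 ^ i / 8 := fun i => by positivity
  -- properties of W
  have hWd : ∀ i z, 0 < z.im → DifferentiableAt ℂ (W i) z := fun i z hz => ((hHMW _ _ (hl i)).1 z hz).1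
  have hW0 : ∀ i z, 0 < z.im → 0 ≤ (W i z).re := fun i z hz => ((hHMW _ _ (hl i)).1 z hz).2.1
  have hW1 : ∀ i z, 0 < z.im → (W i z).re ≤ 1 := fun i z hz => ((hHMW _ _ (hl i)).1 z hz).2.2.1
  have hWf : ∀ (i : ℕ) (z : ℂ), 0 < z.im →
      (z.re ≤ y i - g * 2 ^ i / 4 - g / 4 ∨ y i + g * 2 ^ i / 4 + g / 4 ≤ z.re) →
      (W i z).re ≤ z.im * (g * 2 ^ i / 2) / (Real.pi * (g / 4) ^ 2) := by
    intro i z hz hh
    have := ((hHMW _ _ (hl i)).1 z hz).2.2.2.2 (g / 4) (by positivity) hh
    have e : (y i + g * 2 ^ i / 4) - (y i - g * 2 ^ i / 4) = g * 2 ^ i / 2 := by ring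
    rw [e] at this
    exact this
  have hWI : ∀ i : ℕ, i1 ≤ i → i < i2 → c * g ^ 2 / 200 ≤ c * g * 2 ^ i / 8 * (W i Complex.I).re := by
    intro i h1 h2
    obtain ⟨ha, hb, -⟩ := hgap i h1 h2
    have hi1 : (1 : ℝ) ≤ 2 ^ i := one_le_pow₀ (by norm_num)
    have hgi : g * 2 ^ i ≤ 1 / 8 * 2 ^ i := mul_le_mul_of_nonneg_right hg8 (by positivity)
    exact HMB_low c g hc hg hg8 i (y i) _ ha hb ((hHMW _ _ (hl i)).2 (by linarith))
  have hEd : ∀ z : ℂ, 0 < z.im → DifferentiableAt ℂ E z := by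
    intro z hz
    have : E = ∑ i ∈ Finset.Ico i1 i2, fun z => ((c * g * 2 ^ i / 8 : ℝ) : ℂ) * W i z := by
      ext w
      simp [hE, Finset.sum_apply]
    rw [this]
    exact DifferentiableAt.sum fun i _ => (hWd i z hz).const_mul _
  have hFd : ∀ z : ℂ, 0 < z.im → DifferentiableAt ℂ F z := fun z hz =>
    (hdiff z hz).mul (hEd z hz).cexp
  have hEsum : ∀ z : ℂ, 0 < z.im → (E z).re ≤ c * g / 8 * 2 ^ i2 := by
    intro z hz
    rw [hEre]
    calc _ ≤ ∑ i ∈ Finset.Ico i1 i2, c * g * 2 ^ i / 8 := by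
          apply Finset.sum_le_sum
          intro i _
          have := mul_le_mul_of_nonneg_left (hW1 i z hz) (hlam i).le
          linarith
      _ = c * g / 8 * ∑ i ∈ Finset.Ico i1 i2, (2 : ℝ) ^ i := by
          rw [Finset.mul_sum]
          exact Finset.sum_congr rfl fun i _ => by ring
      _ ≤ _ := mul_le_mul_of_nonneg_left (HMB_sum i1 i2) (by positivity)
  set K : ℝ := ∑ i ∈ Finset.Ico i1 i2, c * g * 2 ^ i / 8 * ((g * 2 ^ i / 2) / (Real.pi * (g / 4) ^ 2)) with hK
  have hK0 : 0 ≤ K := Finset.sum_nonneg fun i _ => by positivity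
  -- the key bound for small ε
  have key : ∀ ε : ℝ, 0 < ε → ε ≤ g / 4 → ‖F Complex.I‖ ≤ A * Real.exp ((c + K) * ε) := by
    intro ε hε hεg
    have hLpos : (0 : ℝ) < 2 ^ (i2 + 3) := by positivity
    have hL1 : (1 : ℝ) ≤ 2 ^ (i2 + 3) := one_le_pow₀ (by norm_num)
    have hεL : ε < 2 ^ (i2 + 3) := by linarith
    have hAexp : A ≤ A * Real.exp ((c + K) * ε) := by
      have : 1 ≤ Real.exp ((c + K) * ε) := Real.one_le_exp (by positivity)
      calc A = A * 1 := (mul_one A).symm
        _ ≤ _ := mul_le_mul_of_nonneg_left this hA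
    apply PhragmenLindelof.horizontal_strip (a := ε) (b := 2 ^ (i2 + 3))
    · apply DifferentiableOn.diffContOnCl
      intro z hz
      have hz' : ε ≤ z.im := by
        have hcl : IsClosed (Complex.im ⁻¹' Icc ε ((2 : ℝ) ^ (i2 + 3))) :=
          isClosed_Icc.preimage Complex.continuous_im
        have := closure_minimal (preimage_mono Ioo_subset_Icc_self) hcl hz
        exact this.1
      exact (hFd z (by linarith)).differentiableWithinAt
    · refine ⟨0, div_pos Real.pi_pos (by linarith), 0, ?_⟩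
      apply Asymptotics.IsBigO.of_bound (A * Real.exp (c * g / 8 * 2 ^ i2))
      rw [Filter.eventually_inf_principal]
      refine Filter.Eventually.of_forall fun z hz => ?_
      have hz0 : 0 < z.im := lt_trans hε hz.1
      rw [hFn]
      simp only [zero_mul, Real.exp_zero, norm_one, mul_one]
      have h1 : ‖C z‖ ≤ A := by
        refine (hbd z hz0 hz.2.le).trans ?_
        calc A * Real.exp (-(c * z.im)) ≤ A * 1 :=
              mul_le_mul_of_nonneg_left (Real.exp_le_one_iff.mpr (by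
                have := mul_pos hc hz0
                linarith)) hA
          _ = A := mul_one A
      exact mul_le_mul h1 (Real.exp_le_exp.mpr (hEsum z hz0)) (Real.exp_pos _).le hA
    · intro z hz
      have hz0 : 0 < z.im := by rw [hz]; exact hε
      rw [hFn]
      by_cases hcase : ∃ i, i1 ≤ i ∧ i < i2 ∧ |z.re - y i| ≤ g * 2 ^ i / 2
      · obtain ⟨i, h1, h2, h3⟩ := hcase
        obtain ⟨ha, hb, hd⟩ := hgap i h1 h2
        have hi1 : (1 : ℝ) ≤ 2 ^ i := one_le_pow₀ (by norm_num)
        have hgi : g ≤ g * 2 ^ i := by nlinarith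
        have hCz : ‖C z‖ ≤ A * Real.exp (c * ε) * Real.exp (-(c * g * 2 ^ i / 8)) := by
          have := hROT C z c (g * 2 ^ i / 4) A hc.le (by positivity) hA ?_
          · rw [hz, abs_of_pos hε] at this
            have e : -(c * (g * 2 ^ i / 4) / 2) = -(c * g * 2 ^ i / 8) := by ring
            rw [e] at this
            exact this
          · intro w hw
            apply hd
            have h4 : ‖z - (y i : ℂ)‖ ≤ |z.re - y i| + ε := by
              have := Complex.norm_le_abs_re_add_abs_im (z - (y i : ℂ))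
              simp only [Complex.sub_re, Complex.ofReal_re, Complex.sub_im, Complex.ofReal_im, sub_zero] at this
              rw [hz, abs_of_pos hε] at this
              exact this
            have h5 : w - (y i : ℂ) = (w - z) + (z - (y i : ℂ)) := by ring
            rw [h5]
            refine (norm_add_le _ _).trans ?_
            linarith
        have hEz : (E z).re ≤ c * g * 2 ^ i / 8 + K * ε := by
          rw [hEre]
          have hmem : i ∈ Finset.Ico i1 i2 := Finset.mem_Ico.mpr ⟨h1, h2⟩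
          rw [← Finset.add_sum_erase _ _ hmem]
          apply add_le_add
          · have := mul_le_mul_of_nonneg_left (hW1 i z hz0) (hlam i).le
            linarith
          · rw [hK, Finset.sum_mul]
            rw [← Finset.add_sum_erase _ (fun i => c * g * 2 ^ i / 8 * (g * 2 ^ i / 2 / (Real.pi * (g / 4) ^ 2)) * ε) hmem]
            have h6 : 0 ≤ c * g * 2 ^ i / 8 * (g * 2 ^ i / 2 / (Real.pi * (g / 4) ^ 2)) * ε := by positivity
            refine le_trans ?_ (le_add_of_nonneg_left h6)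
            apply Finset.sum_le_sum
            intro j hj
            rw [Finset.mem_erase, Finset.mem_Ico] at hj
            obtain ⟨hc', hd', -⟩ := hgap j hj.2.1 hj.2.2
            have h7 := hWf j z hz0 (HMB_far g hg hg8 i j hj.1 (y i) (y j) z.re ha hb hc' hd' h3)
            rw [hz] at h7
            have h8 := mul_le_mul_of_nonneg_left h7 (hlam j).le
            refine h8.trans (le_of_eq ?_)
            ring
        calc ‖C z‖ * Real.exp (E z).re
            ≤ (A * Real.exp (c * ε) * Real.exp (-(c * g * 2 ^ i / 8))) * Real.exp (c * g * 2 ^ i / 8 + K * ε) :=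
              mul_le_mul hCz (Real.exp_le_exp.mpr hEz) (Real.exp_pos _).le (by positivity)
          _ = A * Real.exp ((c + K) * ε) := by
              rw [mul_assoc, mul_assoc, ← Real.exp_add, ← Real.exp_add]
              congr 2
              ring
      · push Not at hcase
        have hEz : (E z).re ≤ K * ε := by
          rw [hEre, hK, Finset.sum_mul]
          apply Finset.sum_le_sum
          intro j hj
          rw [Finset.mem_Ico] at hj
          have h3 := hcase j hj.1 hj.2
          have hj1 : (1 : ℝ) ≤ 2 ^ j := one_le_pow₀ (by norm_num)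
          have hgj : g ≤ g * 2 ^ j := by nlinarith
          have h7 := hWf j z hz0 (by
            rcases lt_abs.mp h3 with h | h
            · right; linarith
            · left; linarith)
          rw [hz] at h7
          have h8 := mul_le_mul_of_nonneg_left h7 (hlam j).le
          refine h8.trans (le_of_eq ?_)
          ring
        have hCz : ‖C z‖ ≤ A * Real.exp (c * ε) := by
          refine (hbd z hz0 (by rw [hz]; exact hεL.le)).trans ?_
          apply mul_le_mul_of_nonneg_left _ hA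
          apply Real.exp_le_exp.mpr
          rw [hz]
          have := mul_pos hc hε
          linarith
        calc ‖C z‖ * Real.exp (E z).re ≤ (A * Real.exp (c * ε)) * Real.exp (K * ε) :=
              mul_le_mul hCz (Real.exp_le_exp.mpr hEz) (Real.exp_pos _).le (by positivity)
          _ = A * Real.exp ((c + K) * ε) := by
              rw [mul_assoc, ← Real.exp_add]
              congr 2
              ring
    · intro z hz
      have hz0 : 0 < z.im := by rw [hz]; exact hLpos
      rw [hFn]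
      refine le_trans ?_ hAexp
      have h1 := hbd z hz0 hz.le
      rw [hz] at h1
      have h2 := hEsum z hz0
      have h3 : c * g / 8 * 2 ^ i2 ≤ c * 2 ^ (i2 + 3) := by
        rw [pow_add]
        have : 0 < c * 2 ^ i2 := by positivity
        nlinarith
      calc ‖C z‖ * Real.exp (E z).re ≤ (A * Real.exp (-(c * 2 ^ (i2 + 3)))) * Real.exp (c * 2 ^ (i2 + 3)) :=
            mul_le_mul h1 (Real.exp_le_exp.mpr (h2.trans h3)) (Real.exp_pos _).le (by positivity)
        _ = A := by
            rw [mul_assoc, ← Real.exp_add]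
            simp
    · simp
      linarith
    · simpa using hL1
  have hFI : ‖F Complex.I‖ ≤ A := by
    have ht : Filter.Tendsto (fun ε : ℝ => A * Real.exp ((c + K) * ε)) (nhdsWithin 0 (Ioi 0)) (nhds (A * Real.exp ((c + K) * 0))) := by
      apply Filter.Tendsto.mono_left _ nhdsWithin_le_nhds
      exact (Continuous.tendsto (by fun_prop) 0)
    simp only [mul_zero, Real.exp_zero, mul_one] at ht
    apply ge_of_tendsto ht
    have : Ioo (0 : ℝ) (g / 4) ∈ nhdsWithin (0 : ℝ) (Ioi 0) := Ioo_mem_nhdsGT (by positivity)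
    filter_upwards [this] with ε hε
    exact key ε hε.1 hε.2.le
  have hEI : c * g ^ 2 * ((i2 : ℝ) - i1) / 200 ≤ (E Complex.I).re := by
    rw [hEre]
    have : ∑ i ∈ Finset.Ico i1 i2, c * g ^ 2 / 200 ≤ ∑ i ∈ Finset.Ico i1 i2, (c * g * 2 ^ i / 8) * (W i Complex.I).re := by
      apply Finset.sum_le_sum
      intro i hi'
      rw [Finset.mem_Ico] at hi'
      exact hWI i hi'.1 hi'.2
    rw [Finset.sum_const, Nat.card_Ico, nsmul_eq_mul, Nat.cast_sub hi] at this
    linarith
  rw [hFn] at hFI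
  have h9 : ‖C Complex.I‖ = (‖C Complex.I‖ * Real.exp (E Complex.I).re) * Real.exp (-(E Complex.I).re) := by
    rw [mul_assoc, ← Real.exp_add]
    simp
  rw [h9]
  exact mul_le_mul hFI (Real.exp_le_exp.mpr (by linarith)) (Real.exp_pos _).le hA

end Pool.Agent.FS
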